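import Pool.Agent.MP_8ec908_lc.H18.Kit

/-! Final assembly from the module statements. -/

namespace Pool.Agent.MP_8ec908_lc.H18

open Pool.Agent.MP_8ec908_lc.Defs Pool.Agent.MP_8ec908_lc.H78 Function

/-- conjunction of a list with a last conjunct -/
def conjL (L : List Fm) (z : Fm) : Fm := L.foldr conj z

theorem conj_closed {a b : Fm} (ha : a.Closed) (hb : b.Closed) : (conj a b).Closed := by
  intro x hx
  rcases hx with (h | h | h) | h
  · exact ha x h
  · exact hb x h
  · exact h
  · exact h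

theorem conjL_closed {L : List Fm} {z : Fm} (hL : ∀ a ∈ L, a.Closed) (hz : z.Closed) :
    (conjL L z).Closed := by
  induction L with
  | nil => exact hz
  | cons a L ih =>
    exact conj_closed (hL a (by simp)) (ih fun b hb => hL b (List.mem_cons_of_mem _ hb))

theorem conj_len (a b : Fm) :
    (conj a b).str.length = a.str.length + b.str.length + 5 := by
  simp [conj, neg, Fm.str]
  omega

theorem conjL_prov {A L : List Fm} {z : Fm} (h : Prov A (conjL L z)) :
    (∀ a ∈ L, Prov A a) ∧ Prov A z := by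
  induction L with
  | nil => exact ⟨by simp, h⟩
  | cons a L ih =>
    obtain ⟨h1, h2⟩ := ih (Prov.conj_right h)
    refine ⟨fun b hb => ?_, h2⟩
    rcases List.mem_cons.1 hb with rfl | hb
    · exact Prov.conj_left h
    · exact h1 b hb

theorem conjL_valid {PV : Fm → Prop} {n : ℕ}
    (hc : ∀ a b : Fm, a.Closed → b.Closed → PV a → PV b → PV (conj a b))
    {L : List Fm} {z : Fm} (hL : ∀ a ∈ L, a.Closed) (hz : z.Closed)
    (h1 : ∀ a ∈ L, a.str.length ≤ n → PV a) (h2 : z.str.length ≤ n → PV z)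
    (hn : (conjL L z).str.length ≤ n) : PV (conjL L z) := by
  induction L with
  | nil => exact h2 hn
  | cons a L ih =>
    have hn' : (conj a (conjL L z)).str.length ≤ n := hn
    rw [conj_len] at hn'
    have hL' : ∀ b ∈ L, b.Closed := fun b hb => hL b (List.mem_cons_of_mem _ hb)
    exact hc _ _ (hL a (by simp)) (conjL_closed hL' hz) (h1 a (by simp) (by omega))
      (ih hL' (fun b hb => h1 b (List.mem_cons_of_mem _ hb)) (by omega))

theorem conjL_str (L : List Fm) : ∃ L1 L2 : List ℕ, ∀ z : Fm,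
    (conjL L z).str = L1 ++ z.str ++ L2 := by
  induction L with
  | nil => exact ⟨[], [], fun z => by simp [conjL]⟩
  | cons a L ih =>
    obtain ⟨L1, L2, h⟩ := ih
    refine ⟨7 :: 7 :: (a.str ++ 7 :: L1), L2 ++ [4, 4], fun z => ?_⟩
    have : conjL (a :: L) z = conj a (conjL L z) := rfl
    rw [this]
    simp [conj, neg, Fm.str, h]

theorem ax0_closed : ∀ b ∈ Ax0, b.Closed := by
  intro b hb
  simp only [Ax0, List.mem_cons, List.not_mem_nil, or_false] at hb
  rcases hb with rfl | rfl | rfl | rfl | rfl | rfl | rfl | rfl | rfl | rfl | rfl | rfl | rfl |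
    rfl | rfl | rfl <;> intro x <;>
  simp [axN0, axNS, axEX, axX1, axX2, axX3, axX4, axX5, axCube, axP0, axPT1, axPT2, axPT3, axPR1,
    axPR2, axPR3, alls, imps, cubeM, perHyp, NatR, Pe, TT, rho, H78.xor, neg, ex, zero, succ, add,
    num, Fm.Free, Tm.Occ, Fin.exists_fin_succ] <;> omega

/-- `∀ v₁ (¬ Pe v₁ → C)` -/
def wrap (C : Fm) : Fm := .all 1 (.imp (neg (Pe (.var 1))) C)

theorem num_subst (n x : ℕ) (u : Tm) : (num n).subst x u = num n :=
  tm_subst_not_occ _ _ _ (num_not_occ n x)

theorem inst_num {A : List Fm} {x : ℕ} {a : Fm} (n : ℕ) (h : Prov A (.all x a)) :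
    Prov A (a.subst x (num n)) :=
  (Prov.logic (.inst x (num n) a (freeFor_closed _ _ (num_not_occ n)))).mp h

theorem pe_subst (x : ℕ) (u t : Tm) : (Pe t).subst x u = Pe (t.subst x u) := by
  simp only [Pe, Fm.subst]
  congr 1
  funext i
  fin_cases i
  rfl

theorem exists_rank_bound (p : List Fm) : ∃ k, ∀ b ∈ p, b.rank ≤ k := by
  induction p with
  | nil => exact ⟨0, by simp⟩
  | cons a p ih =>
    obtain ⟨k, hk⟩ := ih
    refine ⟨max a.rank k, fun b hb => ?_⟩
    rcases List.mem_cons.1 hb with rfl | hb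
    · exact le_max_left _ _
    · exact (hk b hb).trans (le_max_right _ _)

end Pool.Agent.MP_8ec908_lc.H18
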