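import Pool.Agent.MP_8ec908_lc.H18.Assemble0

/-! Final assembly from the module statements `M3a`, `M3b`, `M45`, `M6`, `M8`. -/

namespace Pool.Agent.MP_8ec908_lc.H18

open Pool.Agent.MP_8ec908_lc.Defs Pool.Agent.MP_8ec908_lc.H78 Function

/-- the part of the self-referential axiom after the numeral -/
def body2 (Φ C : Fm) : Fm := .all 0 (.imp Φ (wrap C))

/-- the self-referential axiom -/
def fix2 (Φ C : Fm) (c : ℕ) : Fm := .all 2 (.imp (.eq (.var 2) (num c)) (body2 Φ C))

theorem fix2_str (Φ C : Fm) (c : ℕ) :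
    (fix2 Φ C c).str = [8, 1, 1, 0, 7, 5, 2, 1, 1, 0] ++ (num c).str ++ (body2 Φ C).str := by
  simp [fix2, Fm.str, Tm.str, idx, List.replicate]

theorem fix2_closed {Φ C : Fm} (hΦ : ∀ x, Φ.Free x → x = 0 ∨ x = 2)
    (hC : ∀ x, C.Free x → x = 0 ∨ x = 1) (c : ℕ) : (fix2 Φ C c).Closed := by
  intro x hx
  have h1 := hΦ x
  have h2 := hC x
  have h3 := num_not_occ c x
  simp [fix2, body2, wrap, neg, Pe, Fm.Free, Tm.Occ, h3] at hx
  tauto

theorem fix2_static {Φ C : Fm} (hΦ : Static Φ) (hC : ArF C) (c : ℕ) : Static (fix2 Φ C c) :=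
  .all _ _ (.imp _ _ (.eq _ _ (.var _) (arT_num c)) (.all _ _ (.imp _ _ hΦ
    (.all _ _ (.imp _ _ (.imp _ _ (.pe _ (.var _)) .bot) (static_of_arF hC))))))

theorem fix2_prov {A : List Fm} {Φ C : Fm} {c y : ℕ} (hC : ∀ x, C.Free x → x = 0 ∨ x = 1)
    (h : Prov A (fix2 Φ C c)) (hΦ : Prov A ((Φ.subst 2 (num c)).subst 0 (num y))) :
    Prov A (wrap (C.subst 0 (num y))) := by
  have h1 := inst_num c h
  simp only [Fm.subst, Tm.subst, if_true, num_subst] at h1
  have h2 := h1.mp (Prov.logic (.refl _))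
  have hC2 : C.subst 2 (num c) = C := subst_not_free _ _ _ fun hx => by
    rcases hC 2 hx with h | h <;> omega
  simp only [body2, wrap, Fm.subst, Tm.subst, neg, pe_subst, hC2, OfNat.zero_ne_ofNat, if_false,
    OfNat.one_ne_ofNat] at h2
  have h3 := inst_num y h2
  simp only [Fm.subst, Tm.subst, one_ne_zero, if_false, pe_subst] at h3
  exact h3.mp hΦ

theorem nonvacuous2 (h3 : M3bStatement) (h8 : M8Statement) : ∃ g C, Numeration g C := by
  obtain ⟨R, hR, h⟩ := h8
  obtain ⟨C, h1, h2, hC⟩ := h3 R hR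
  refine ⟨fun a => Encodable.encode a.str, C, ⟨_, Primrec.encode, fun _ => rfl⟩, h1, h2,
    fun a _ n => (hC _ n).1.trans (h a n), fun a _ n hn => (hC _ n).2 ((h a n).2 hn)⟩

theorem main2 (h3 : M3aStatement) (h45 : M45Statement) (h6 : M6Statement) (g : Fm → ℕ) (C : Fm)
    (hN : Numeration g C) :
    ∃ a : Fm, a.Closed ∧ (¬ ∃ p, IsProof (Q ++ [a]) p ∧ Fm.bot ∈ p) ∧
      ∃ k : ℕ, ∃ P : Polynomial ℕ, ∀ n : ℕ,
        ∃ p, IsProof (Q ++ [a]) p ∧ p.head? = some (con C (g a) n) ∧ len p ≤ P.eval n ∧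
          ∀ b ∈ p, Cx true k b ∧ b.rank ≤ k := by
  classical
  obtain ⟨h, hh, hg⟩ := hN.primrec
  let dec : ℕ → List ℕ × List ℕ := fun c => (Encodable.decode c).getD ([], [])
  have hdec : Primrec dec := Primrec.option_getD.comp Primrec.decode (Primrec.const _)
  let F : ℕ → ℕ := fun c => h ((dec c).1 ++ (num c).str ++ (dec c).2)
  have hF : Primrec F := hh.comp (Primrec.list_append.comp
    (Primrec.list_append.comp (Primrec.fst.comp hdec) primrec_num_str) (Primrec.snd.comp hdec))
  obtain ⟨Φ, hΦs, hΦf, hΦp, hΦa⟩ := h3 F hF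
  obtain ⟨L1, L2, hL⟩ := conjL_str Ax0
  let c : ℕ := Encodable.encode (L1 ++ [8, 1, 1, 0, 7, 5, 2, 1, 1, 0], (body2 Φ C).str ++ L2)
  let a : Fm := conjL Ax0 (fix2 Φ C c)
  have hga : g a = F c := by
    have : dec c = (L1 ++ [8, 1, 1, 0, 7, 5, 2, 1, 1, 0], (body2 Φ C).str ++ L2) := by
      simp only [dec, c, Encodable.encodek, Option.getD_some]
    simp only [F, this, hg, a, hL, fix2_str, List.append_assoc]
  have hfc : (fix2 Φ C c).Closed := fix2_closed hΦf hN.fv c
  have hac : a.Closed := conjL_closed ax0_closed hfc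
  refine ⟨a, hac, ?_, ?_⟩
  · intro hex
    have hex' : ∃ n, ∃ p, IsProof (Q ++ [a]) p ∧ Fm.bot ∈ p ∧ len p ≤ n := by
      obtain ⟨p, h1, h2⟩ := hex
      exact ⟨_, p, h1, h2, le_rfl⟩
    obtain ⟨p, hp, hbot, hlen⟩ := Nat.find_spec hex'
    have h1 : 1 ≤ Nat.find hex' := by
      refine le_trans ?_ hlen
      exact le_trans (fm_len_pos .bot) (List.single_le_sum (fun _ _ => Nat.zero_le _) _
        (List.mem_map_of_mem (f := fun a : Fm => a.str.length) hbot))
    obtain ⟨D, M, ι, PV, hstd, hQ, hPe, hsound, hnb, hAx, hconj, hstat⟩ := h45 _ h1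
    refine hnb (hsound _ p hp hlen ?_ _ hbot)
    intro b hb hbl
    rcases List.mem_append.1 hb with hb | hb
    · exact hstat b (static_Q b hb) hbl (hQ b hb)
    rw [List.mem_singleton.1 hb] at hbl ⊢
    refine conjL_valid hconj ax0_closed hfc hAx (fun hl => ?_) hbl
    refine hstat _ (fix2_static hΦs hN.arith c) hl fun v => ?_
    intro d0 hd0 d1 hd1 d3 hd3
    have e0 : d0 = ι c := by
      have : ev M (update v 2 d0) (.var 2) = ev M (update v 2 d0) (num c) := hd0
      rw [ev_num M hstd] at this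
      simpa [ev] using this
    have e1 : d1 = ι (g a) := by
      have := hΦa D M ι hstd _ c (by simp [e0]) hd1
      rw [hga]
      simpa using this
    have hnp : ¬ M.rel 1 1 ![d3] := by
      intro hp'
      apply hd3
      simp only [Pe, sat]
      convert hp' using 1
      funext i
      fin_cases i
      simp [ev]
    rw [hPe] at hnp
    push Not at hnp
    obtain ⟨x, hx, hxn⟩ := hnp
    have hno : NoShortRefutation (Q ++ [a]) x := Nat.find_min hex' hxn
    obtain ⟨q, hq, hmem⟩ := hN.provable a hac x hno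
    have hs := sound M hq hQ _ hmem v
    rw [con, sat_subst M _ _ _ (freeFor_closed _ _ (num_not_occ _)),
      sat_subst M _ _ _ (freeFor_closed _ _ (num_not_occ _)), ev_num M hstd, ev_num M hstd] at hs
    refine (sat_congr M C fun z hz => ?_).1 hs
    rcases hN.fv z hz with rfl | rfl
    · simp [e1]
    · simp [hx]
  · obtain ⟨k6, P6, h6⟩ := h6
    have ha : Prov (Q ++ [a]) a := Prov.ax (by simp)
    obtain ⟨hAx0, hfix⟩ := conjL_prov ha
    have hQ : ∀ b ∈ Q, Prov (Q ++ [a]) b := fun b hb => Prov.ax (List.mem_append_left _ hb)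
    have hW : Prov (Q ++ [a]) (wrap (C.subst 0 (num (g a)))) :=
      fix2_prov hN.fv hfix (Prov.cut (hga ▸ hΦp c) fun b hb => by
        rcases List.mem_append.1 hb with hb | hb
        · exact hQ b hb
        · refine hAx0 b ?_
          simp only [List.mem_cons, List.not_mem_nil, or_false] at hb
          rcases hb with rfl | rfl <;> simp [Ax0])
    set C0 := C.subst 0 (num (g a)) with hC0
    obtain ⟨q, hq, hqm⟩ := Prov.all_lines (wrap C0 :: (Q ++ Ax0)) (by
      intro b hb
      rcases List.mem_cons.1 hb with rfl | hb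
      · exact hW
      rcases List.mem_append.1 hb with hb | hb
      · exact hQ b hb
      · exact hAx0 b hb)
    obtain ⟨kq, hkq⟩ := exists_rank_bound q
    set W0 : Fm := .imp (neg (Pe (.var 1))) C0 with hW0
    set ℓ := (wrap C0).str.length with hℓ
    refine ⟨max k6 kq + 1, P6 + Polynomial.C (len q + ℓ + 1) +
      Polynomial.C (3 * ℓ) * (4 * Polynomial.X + 3), fun n => ?_⟩
    obtain ⟨p, hp, hpe, hlen, hrk⟩ := h6 n
    obtain ⟨p', h1, h2, h3', h4⟩ := isProof_cut hp hq fun b hb => hqm b (List.mem_cons_of_mem _ hb)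
    have hWq : wrap C0 ∈ p' ++ q := List.mem_append_right _ (hqm _ (by simp))
    have hsub : W0.subst 1 (num n) = .imp (neg (Pe (num n))) (con C (g a) n) := by
      simp only [hW0, Fm.subst, neg, pe_subst, Tm.subst, if_true, con, hC0]
    let l1 : Fm := .imp (wrap C0) (W0.subst 1 (num n))
    let l2 : Fm := W0.subst 1 (num n)
    have s1 : IsProof (Q ++ [a]) (l1 :: (p' ++ q)) :=
      .logic _ _ h1 (.inst 1 (num n) W0 (freeFor_closed _ _ (num_not_occ n)))
    have s2 : IsProof (Q ++ [a]) (l2 :: l1 :: (p' ++ q)) :=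
      .mp _ (wrap C0) _ s1 (List.mem_cons_of_mem _ hWq) (by simp [l1, l2])
    have s3 : IsProof (Q ++ [a]) (con C (g a) n :: l2 :: l1 :: (p' ++ q)) :=
      .mp _ (neg (Pe (num n))) _ s2
        (List.mem_cons_of_mem _ (List.mem_cons_of_mem _ (h2 _ hpe))) (by simp [l2, hsub])
    refine ⟨_, s3, rfl, ?_, ?_⟩
    · have hW0l : W0.str.length ≤ ℓ := by
        simp only [hℓ, wrap, ← hW0, Fm.str, List.length_cons, List.length_append]
        omega
      have hl2 : l2.str.length ≤ ℓ * (4 * n + 3) := by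
        have := fm_len_subst W0 1 (num n)
        rw [num_len] at this
        exact this.trans (Nat.mul_le_mul_right _ hW0l)
      have hl1 : l1.str.length = ℓ + l2.str.length + 1 := by
        simp only [l1, l2, hℓ, Fm.str, List.length_cons, List.length_append]
      have hl3 : (con C (g a) n).str.length ≤ l2.str.length := by
        simp only [l2, hsub, Fm.str, List.length_cons, List.length_append]
        omega
      simp only [len_cons, len_append, Polynomial.eval_add, Polynomial.eval_mul, Polynomial.eval_C,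
        Polynomial.eval_X, Polynomial.eval_ofNat]
      nlinarith
    · have hrW : (wrap C0).rank ≤ kq := hkq _ (hqm _ (by simp))
      have hrW0 : W0.rank + 1 = (wrap C0).rank := rfl
      have hr2 : l2.rank ≤ kq := by simp only [l2, rank_subst]; omega
      have hr : ∀ b ∈ con C (g a) n :: l2 :: l1 :: (p' ++ q), b.rank ≤ max k6 kq := by
        intro b hb
        simp only [List.mem_cons, List.mem_append] at hb
        rcases hb with rfl | rfl | rfl | hb | hb
        · have : (con C (g a) n).rank ≤ l2.rank := by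
            simp only [l2, hsub, Fm.rank]
            exact le_max_right _ _
          exact (this.trans hr2).trans (le_max_right _ _)
        · exact hr2.trans (le_max_right _ _)
        · exact (max_le hrW hr2).trans (le_max_right _ _)
        · exact (hrk b (h3' b hb)).trans (le_max_left _ _)
        · exact (hkq b hb).trans (le_max_right _ _)
      exact fun b hb => ⟨cx_of_rank b _ (hr b hb) true, (hr b hb).trans (Nat.le_succ _)⟩

theorem target2 (h3a : M3aStatement) (h3b : M3bStatement) (h45 : M45Statement) (h6 : M6Statement)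
    (h8 : M8Statement) : Target :=
  ⟨nonvacuous2 h3b h8, main2 h3a h45 h6⟩

end Pool.Agent.MP_8ec908_lc.H18
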