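import Pool.Agent.MP_8ec908_lc.Defs

namespace Pool.Agent.MP_8ec908_lc.H18

open Pool.Agent.MP_8ec908_lc.Defs

/-- The binary numeral: `0`, `2 · t` for an even number and `S (2 · t)` for an odd number, where
`t` is the binary numeral of half the number and `2` is `S S 0`. -/
def bnum (n : ℕ) : Tm :=
  (Nat.digits 2 n).foldr (fun d t => if d = 0 then mul (num 2) t else succ (mul (num 2) t)) zero

/-- The finite consistency statement: `C` with the numerals `ν c` and `ν n` put for `v_0`, `v_1`. -/
def conN (ν : ℕ → Tm) (C : Fm) (c n : ℕ) : Fm := (C.subst 0 (ν c)).subst 1 (ν n)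

/-- A numeration of finite consistency for the theories `Q + a`, with numerals `ν`: a primitive
recursive Goedel numbering `g` and an arithmetic formula `C(v_0, v_1)` such that `C(g a, n)` is true
exactly when `Q + a` has no refutation of length at most `n`, and is then provable in `Q`. -/
structure NumerationN (ν : ℕ → Tm) (g : Fm → ℕ) (C : Fm) : Prop where
  primrec : ∃ h : List ℕ → ℕ, Primrec h ∧ ∀ a, g a = h a.str
  arith : ArF C
  fv : ∀ x, C.Free x → x = 0 ∨ x = 1
  correct : ∀ a : Fm, a.Closed → ∀ n : ℕ,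
    ((conN ν C (g a) n).Holds (fun _ => 0) ↔ NoShortRefutation (Q ++ [a]) n)
  provable : ∀ a : Fm, a.Closed → ∀ n : ℕ, NoShortRefutation (Q ++ [a]) n →
    ∃ p, IsProof Q p ∧ conN ν C (g a) n ∈ p

end Pool.Agent.MP_8ec908_lc.H18
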