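import Pool.Agent.MP_8ec908_lc.H18.Assemble0
import Pool.Agent.MP_8ec908_lc.H18.Defs2

/-! Binary numerals: short proofs of `bnum n = num n` in `Q`, and replacement of equals. -/

namespace Pool.Agent.MP_8ec908_lc.H18

open Pool.Agent.MP_8ec908_lc.Defs Pool.Agent.MP_8ec908_lc.H78 Function

/-- a term without variables -/
def Cl (t : Tm) : Prop := ∀ y, ¬ t.Occ y

theorem cl_num (n : ℕ) : Cl (num n) := num_not_occ n

theorem cl_succ {t : Tm} (h : Cl t) : Cl (succ t) := by
  rintro y ⟨i, hi⟩
  fin_cases i
  exact h y hi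

theorem cl_mul {s t : Tm} (hs : Cl s) (ht : Cl t) : Cl (mul s t) := by
  rintro y ⟨i, hi⟩
  fin_cases i
  · exact hs y hi
  · exact ht y hi

theorem Cl.subst {t : Tm} (h : Cl t) (x : ℕ) (u : Tm) : t.subst x u = t :=
  tm_subst_not_occ _ _ _ (h x)

theorem succ_subst (t : Tm) (x : ℕ) (u : Tm) : (succ t).subst x u = succ (t.subst x u) := by
  simp only [succ, Tm.subst]
  congr 1
  funext i
  fin_cases i
  rfl

theorem add_subst (s t : Tm) (x : ℕ) (u : Tm) :
    (add s t).subst x u = add (s.subst x u) (t.subst x u) := by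
  simp only [add, Tm.subst]
  congr 1
  funext i
  fin_cases i <;> rfl

theorem mul_subst (s t : Tm) (x : ℕ) (u : Tm) :
    (mul s t).subst x u = mul (s.subst x u) (t.subst x u) := by
  simp only [mul, Tm.subst]
  congr 1
  funext i
  fin_cases i <;> rfl

theorem zero_subst (x : ℕ) (u : Tm) : zero.subst x u = zero := (cl_num 0).subst x u

theorem var_subst (i x : ℕ) (u : Tm) : (Tm.var i).subst x u = if i = x then u else .var i := rfl

theorem succ_len (t : Tm) : (succ t).str.length = t.str.length + 4 := by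
  simp [succ, Tm.str, idx]

theorem mul_len (s t : Tm) : (mul s t).str.length = s.str.length + t.str.length + 6 := by
  simp [mul, Tm.str, idx]

theorem eq_len (s t : Tm) : (Fm.eq s t).str.length = s.str.length + t.str.length + 1 := by
  simp [Fm.str]

theorem imp_len (a b : Fm) : (Fm.imp a b).str.length = a.str.length + b.str.length + 1 := by
  simp [Fm.str]

theorem bnum_zero : bnum 0 = num 0 := by simp [bnum, num]

theorem bnum_pos {n : ℕ} (h : 0 < n) : bnum n =
    if n % 2 = 0 then mul (num 2) (bnum (n / 2)) else succ (mul (num 2) (bnum (n / 2))) := by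
  rw [bnum, Nat.digits_def' (by norm_num) h]
  rfl

theorem cl_bnum (n : ℕ) : Cl (bnum n) := by
  induction n using Nat.strong_induction_on with
  | _ n ih =>
    rcases Nat.eq_zero_or_pos n with rfl | h
    · rw [bnum_zero]; exact cl_num 0
    · rw [bnum_pos h]
      have := cl_mul (cl_num 2) (ih (n / 2) (by omega))
      split_ifs
      · exact this
      · exact cl_succ this

theorem bnum_len (n : ℕ) : (bnum n).str.length ≤ 21 * n + 3 := by
  induction n using Nat.strong_induction_on with
  | _ n ih =>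
    rcases Nat.eq_zero_or_pos n with rfl | h
    · rw [bnum_zero, num_len]
    · rw [bnum_pos h]
      have := ih (n / 2) (by omega)
      split_ifs
      · rw [mul_len, num_len]; omega
      · rw [succ_len, mul_len, num_len]; omega

theorem num_val (v : ℕ → ℕ) (n : ℕ) : (num n).val v = n := by
  induction n with
  | zero => simp [num, zero, Tm.val]
  | succ n ih => simp [num, succ, Tm.val, ih]

theorem bnum_val (v : ℕ → ℕ) (n : ℕ) : (bnum n).val v = n := by
  induction n using Nat.strong_induction_on with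
  | _ n ih =>
    rcases Nat.eq_zero_or_pos n with rfl | h
    · rw [bnum_zero, num_val]
    · rw [bnum_pos h]
      have := ih (n / 2) (by omega)
      have h2 := num_val v 2
      split_ifs
      · simp [mul, Tm.val, this, h2]; omega
      · simp [mul, succ, Tm.val, this, h2]; omega

theorem val_subst (t : Tm) (x : ℕ) (u : Tm) (v : ℕ → ℕ) :
    (t.subst x u).val v = t.val (update v x (u.val v)) := by
  induction t with
  | var i =>
    by_cases h : i = x
    · subst h; simp [Tm.subst, Tm.val]
    · simp [Tm.subst, h, Tm.val]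
  | app k n ts ih => simp only [Tm.subst, Tm.val, ih]

theorem holds_subst (φ : Fm) (x m : ℕ) {u : Tm} (hu : ∀ v, u.val v = m) : ∀ v : ℕ → ℕ,
    (φ.subst x u).Holds v ↔ φ.Holds (update v x m) := by
  induction φ with
  | bot => intro v; rfl
  | eq s t => intro v; simp only [Fm.subst, Fm.Holds, val_subst, hu]
  | rel k n ts => intro v; rfl
  | imp φ ψ ih1 ih2 => intro v; simp only [Fm.subst, Fm.Holds, ih1, ih2]
  | all y φ ih =>
    intro v
    simp only [Fm.subst]
    split_ifs with h
    · subst h
      simp only [Fm.Holds, update_idem]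
    · simp only [Fm.Holds, ih, update_comm h]

theorem holds_conN {ν : ℕ → Tm} (hν : ∀ n v, (ν n).val v = n) (C : Fm) (c n : ℕ) (v : ℕ → ℕ) :
    (conN ν C c n).Holds v ↔ C.Holds (update (update v 1 n) 0 c) := by
  have h1 := holds_subst (C.subst 0 (ν c)) 1 n (hν n) v
  have h2 := holds_subst C 0 c (hν c) (update v 1 n)
  rw [conN, h1, h2]

/-! ### replacement of equals without bounds -/

namespace Prov

variable {A : List Fm} {a b c : Fm}

theorem gen (x : ℕ) (h : Prov A a) : Prov A (.all x a) := by
  obtain ⟨p, hp, h1⟩ := h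
  exact ⟨.all x a :: p, .gen _ x a hp h1, by simp⟩

theorem id (a : Fm) : Prov A (.imp a a) :=
  ((logic (.s a (.imp a a) a)).mp (logic (.k a (.imp a a)))).mp (logic (.k a a))

theorem pre (h : Prov A (.imp a b)) : Prov A (.imp (.imp b c) (.imp a c)) :=
  ((logic (.s (.imp b c) (.imp a b) (.imp a c))).mp
    (comp (logic (.k (.imp b c) a)) (logic (.s a b c)))).mp ((logic (.k _ (.imp b c))).mp h)

end Prov

theorem tm_subst_self (t : Tm) (x : ℕ) : t.subst x (.var x) = t := by
  induction t with
  | var i =>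
    simp only [Tm.subst]
    split_ifs with h
    · rw [h]
    · rfl
  | app k n ts ih => simp only [Tm.subst, ih]

theorem subst_self (φ : Fm) (x : ℕ) : φ.subst x (.var x) = φ := by
  induction φ with
  | bot => rfl
  | eq s t => simp only [Fm.subst, tm_subst_self]
  | rel k n ts => simp only [Fm.subst, tm_subst_self]
  | imp φ ψ ih1 ih2 => simp only [Fm.subst, ih1, ih2]
  | all y φ ih =>
    simp only [Fm.subst, ih]
    split_ifs <;> rfl

theorem freeFor_self (φ : Fm) (x : ℕ) : φ.FreeFor x (.var x) := by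
  induction φ with
  | bot => trivial
  | eq s t => trivial
  | rel k n ts => trivial
  | imp φ ψ ih1 ih2 => exact ⟨ih1, ih2⟩
  | all y φ ih =>
    by_cases h : y = x
    · exact Or.inl fun h' => h'.1 h
    · exact Or.inr ⟨fun h' => h (Eq.symm h'), ih⟩

theorem all_mono {A : List Fm} {a b : Fm} (y : ℕ) (h : Prov A (.imp a b)) :
    Prov A (.imp (.all y a) (.all y b)) := by
  have h1 : Prov A (.imp (.all y a) a) := by
    have := Prov.logic (A := A) (.inst y (.var y) a (freeFor_self a y))
    rwa [subst_self] at this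
  exact (Prov.logic (.dist y (.all y a) b fun h' => h'.1 rfl)).mp ((h1.comp h).gen y)

theorem leibniz {A : List Fm} {s t : Tm} (x : ℕ) (hst : Prov A (.eq s t)) (hts : Prov A (.eq t s))
    (φ : Fm) : Prov A (.imp (φ.subst x s) (φ.subst x t)) ∧
      Prov A (.imp (φ.subst x t) (φ.subst x s)) := by
  induction φ with
  | bot => exact ⟨Prov.id _, Prov.id _⟩
  | eq u w =>
    exact ⟨(Prov.logic (.leib x s t (.eq u w) trivial)).mp hst,
      (Prov.logic (.leib x t s (.eq u w) trivial)).mp hts⟩
  | rel k n ts =>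
    exact ⟨(Prov.logic (.leib x s t (.rel k n ts) trivial)).mp hst,
      (Prov.logic (.leib x t s (.rel k n ts) trivial)).mp hts⟩
  | imp φ ψ ih1 ih2 => exact ⟨ih1.2.pre.comp ih2.1.lift, ih1.1.pre.comp ih2.2.lift⟩
  | all y φ ih =>
    simp only [Fm.subst]
    split_ifs
    · exact ⟨Prov.id _, Prov.id _⟩
    · exact ⟨all_mono y ih.1, all_mono y ih.2⟩

/-! ### equational reasoning without bounds, for terms avoiding the variable 9 -/

theorem p_trans {A : List Fm} {s t u : Tm} (hs : ¬ s.Occ 9) (h1 : Prov A (.eq s t))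
    (h2 : Prov A (.eq t u)) : Prov A (.eq s u) := by
  have := Prov.logic (A := A) (.leib 9 t u (.eq s (.var 9)) trivial)
  simp only [Fm.subst, var_subst, if_true, tm_subst_not_occ s 9 _ hs] at this
  exact (this.mp h2).mp h1

theorem p_symm {A : List Fm} {s t : Tm} (hs : ¬ s.Occ 9) (h1 : Prov A (.eq s t)) :
    Prov A (.eq t s) := by
  have := Prov.logic (A := A) (.leib 9 s t (.eq (.var 9) s) trivial)
  simp only [Fm.subst, var_subst, if_true, tm_subst_not_occ s 9 _ hs] at this
  exact (this.mp h1).mp (Prov.logic (.refl s))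

theorem p_succ {A : List Fm} {s t : Tm} (hs : ¬ s.Occ 9) (h1 : Prov A (.eq s t)) :
    Prov A (.eq (succ s) (succ t)) := by
  have := Prov.logic (A := A) (.leib 9 s t (.eq (succ s) (succ (.var 9))) trivial)
  simp only [Fm.subst, var_subst, succ_subst, if_true, tm_subst_not_occ s 9 _ hs] at this
  exact (this.mp h1).mp (Prov.logic (.refl _))

theorem p_inst {A : List Fm} {x : ℕ} {a : Fm} (u : Tm) (h : Prov A (.all x a))
    (hf : a.FreeFor x u) : Prov A (a.subst x u) :=
  (Prov.logic (.inst x u a hf)).mp h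

/-- `∀ x, 2 · S x = S S (2 · x)` -/
def dbl : Fm := .all 5 (.eq (mul (num 2) (succ (.var 5))) (succ (succ (mul (num 2) (.var 5)))))

theorem prov_dbl : Prov Q dbl := by
  set w : Tm := mul (num 2) (.var 5) with hw
  have occ : ∀ y, y ≠ 5 → ¬ w.Occ y := by
    rintro y hy ⟨i, hi⟩
    fin_cases i
    · exact cl_num 2 y hi
    · exact hy (Eq.symm hi)
  have q4 : Prov Q (.all 0 (.eq (add (.var 0) zero) (.var 0))) := Prov.ax (by simp [Q])
  have q5 : Prov Q (.all 0 (.all 1 (.eq (add (.var 0) (succ (.var 1)))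
      (succ (add (.var 0) (.var 1)))))) := Prov.ax (by simp [Q])
  have q7 : Prov Q (.all 0 (.all 1 (.eq (mul (.var 0) (succ (.var 1)))
      (add (mul (.var 0) (.var 1)) (.var 0))))) := Prov.ax (by simp [Q])
  have e4 : Prov Q (.eq (add w zero) w) := by
    have := p_inst w q4 trivial
    simpa only [Fm.subst, add_subst, zero_subst, var_subst, if_true] using this
  have e5 : ∀ m, Prov Q (.eq (add w (num (m + 1))) (succ (add w (num m)))) := by
    intro m
    have h1 := p_inst w q5 (Or.inr ⟨occ 1 (by norm_num), trivial⟩)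
    simp only [Fm.subst, add_subst, succ_subst, var_subst, if_true, one_ne_zero, if_false] at h1
    have h2 := p_inst (num m) h1 trivial
    simp only [Fm.subst, add_subst, succ_subst, var_subst, if_true,
      tm_subst_not_occ w 1 _ (occ 1 (by norm_num))] at h2
    exact h2
  have e7 : Prov Q (.eq (mul (num 2) (succ (.var 5))) (add w (num 2))) := by
    have h1 := p_inst (num 2) q7 (freeFor_closed _ _ (cl_num 2))
    simp only [Fm.subst, add_subst, mul_subst, succ_subst, var_subst, if_true, one_ne_zero,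
      if_false] at h1
    have h2 := p_inst (.var 5) h1 trivial
    simpa only [Fm.subst, add_subst, mul_subst, succ_subst, var_subst, if_true,
      num_subst] using h2
  have oa : ∀ m, ¬ (add w (num m)).Occ 9 := by
    rintro m ⟨i, hi⟩
    fin_cases i
    · exact occ 9 (by norm_num) hi
    · exact cl_num m 9 hi
  have f1 : Prov Q (.eq (add w (num 1)) (succ w)) :=
    p_trans (oa 1) (e5 0) (p_succ (oa 0) e4)
  have f2 : Prov Q (.eq (add w (num 2)) (succ (succ w))) :=
    p_trans (oa 2) (e5 1) (p_succ (oa 1) f1)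
  refine Prov.gen 5 (p_trans ?_ e7 f2)
  rintro ⟨i, hi⟩
  fin_cases i
  · exact cl_num 2 9 hi
  · obtain ⟨j, hj⟩ := hi
    fin_cases j
    exact absurd hj (by simp [Tm.Occ])

theorem prov_dbl0 : Prov Q (.eq (mul (num 2) (num 0)) (num 0)) := by
  have q6 : Prov Q (.all 0 (.eq (mul (.var 0) zero) zero)) := Prov.ax (by simp [Q])
  have := p_inst (num 2) q6 trivial
  simp only [Fm.subst, mul_subst, zero_subst, var_subst, if_true] at this
  exact this

/-! ### bounded derivations -/

/-- a proof with at most `N` lines, each of length at most `B` and rank at most `k` -/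
def Der (A : List Fm) (k B N : ℕ) (φ : Fm) : Prop :=
  ∃ p, IsProof A p ∧ φ ∈ p ∧ p.length ≤ N ∧ ∀ b ∈ p, b.str.length ≤ B ∧ b.rank ≤ k

namespace Der

variable {A : List Fm} {k B N N' : ℕ} {a b : Fm} {s t u : Tm}

theorem mono (h : Der A k B N a) (hN : N ≤ N') : Der A k B N' a := by
  obtain ⟨p, h1, h2, h3, h4⟩ := h
  exact ⟨p, h1, h2, h3.trans hN, h4⟩

theorem monoB {k' B' : ℕ} (h : Der A k B N a) (hk : k ≤ k') (hB : B ≤ B') : Der A k' B' N a := by
  obtain ⟨p, h1, h2, h3, h4⟩ := h
  exact ⟨p, h1, h2, h3, fun b hb => ⟨(h4 b hb).1.trans hB, (h4 b hb).2.trans hk⟩⟩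

theorem prov (h : Der A k B N a) : Prov A a := by
  obtain ⟨p, h1, h2, -, -⟩ := h
  exact ⟨p, h1, h2⟩

theorem bound (h : Der A k B N a) : a.str.length ≤ B ∧ a.rank ≤ k := by
  obtain ⟨p, -, h2, -, h4⟩ := h
  exact h4 a h2

theorem logic (h : LogAx a) (hl : a.str.length ≤ B) (hr : a.rank ≤ k) : Der A k B 1 a :=
  ⟨[a], .logic _ a .nil h, by simp, le_rfl, by simpa using ⟨hl, hr⟩⟩

theorem mp (h1 : Der A k B N (.imp a b)) (h2 : Der A k B N' a) : Der A k B (N + N' + 1) b := by
  have hb := h1.bound
  obtain ⟨p, hp, h1, hl1, hb1⟩ := h1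
  obtain ⟨q, hq, h2, hl2, hb2⟩ := h2
  refine ⟨b :: (p ++ q), .mp _ a b (isProof_append hp hq) (List.mem_append_right _ h2)
    (List.mem_append_left _ h1), by simp, by simp; omega, fun c hc => ?_⟩
  simp only [List.mem_cons, List.mem_append] at hc
  rcases hc with rfl | hc | hc
  · rw [imp_len] at hb
    exact ⟨by omega, (le_max_right _ _).trans hb.2⟩
  · exact hb1 c hc
  · exact hb2 c hc

theorem of_prov (h : Prov A a) : ∃ k B N, Der A k B N a := by
  obtain ⟨p, h1, h2⟩ := h
  obtain ⟨k, hk⟩ := exists_rank_bound p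
  exact ⟨k, len p, p.length, p, h1, h2, le_rfl, fun b hb => ⟨List.single_le_sum
    (fun _ _ => Nat.zero_le _) _ (List.mem_map_of_mem (f := fun a : Fm => a.str.length) hb),
    hk b hb⟩⟩

theorem trans (hs : Cl s) (h1 : Der A k B N (.eq s t)) (h2 : Der A k B N' (.eq t u))
    (hB : 2 * (s.str.length + t.str.length + u.str.length) + 5 ≤ B) :
    Der A k B (N + N' + 3) (.eq s u) := by
  have := LogAx.leib 9 t u (.eq s (.var 9)) trivial
  simp only [Fm.subst, var_subst, if_true, hs.subst] at this
  have h3 : Der A k B 1 _ := logic this (by simp only [imp_len, eq_len]; omega) (Nat.zero_le _)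
  exact ((h3.mp h2).mp h1).mono (by omega)

theorem csucc (hs : Cl s) (h1 : Der A k B N (.eq s t))
    (hB : 4 * s.str.length + 2 * t.str.length + 21 ≤ B) :
    Der A k B (N + 4) (.eq (succ s) (succ t)) := by
  have := LogAx.leib 9 s t (.eq (succ s) (succ (.var 9))) trivial
  simp only [Fm.subst, var_subst, succ_subst, if_true, hs.subst] at this
  have h3 : Der A k B 1 _ := logic this (by simp only [imp_len, eq_len, succ_len]; omega)
    (Nat.zero_le _)
  have h4 : Der A k B 1 _ := logic (.refl (succ s)) (by simp only [eq_len, succ_len]; omega)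
    (Nat.zero_le _)
  exact ((h3.mp h1).mp h4).mono (by omega)

theorem cmul (hs : Cl s) (h1 : Der A k B N (.eq s t))
    (hB : 4 * s.str.length + 2 * t.str.length + 73 ≤ B) :
    Der A k B (N + 4) (.eq (mul (num 2) s) (mul (num 2) t)) := by
  have := LogAx.leib 9 s t (.eq (mul (num 2) s) (mul (num 2) (.var 9))) trivial
  simp only [Fm.subst, var_subst, mul_subst, if_true, hs.subst, num_subst] at this
  have h3 : Der A k B 1 _ := logic this
    (by simp only [imp_len, eq_len, mul_len, num_len]; omega) (Nat.zero_le _)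
  have h4 : Der A k B 1 _ := logic (.refl (mul (num 2) s))
    (by simp only [eq_len, mul_len, num_len]; omega) (Nat.zero_le _)
  exact ((h3.mp h1).mp h4).mono (by omega)

theorem len_le (p : List Fm) (h : ∀ b ∈ p, b.str.length ≤ B) : len p ≤ p.length * B := by
  induction p with
  | nil => simp [len]
  | cons a p ih =>
    have h1 := h a (by simp)
    have h2 := ih fun b hb => h b (List.mem_cons_of_mem _ hb)
    rw [len_cons, List.length_cons]
    nlinarith

end Der

theorem der_double : ∃ k B0 c : ℕ, ∀ m B, B0 + 200 * m ≤ B →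
    Der Q k B (c * (m + 1)) (.eq (mul (num 2) (num m)) (num (2 * m))) := by
  obtain ⟨k1, B1, N1, h1⟩ := Der.of_prov prov_dbl
  obtain ⟨k2, B2, N2, h2⟩ := Der.of_prov prov_dbl0
  refine ⟨max k1 k2, 2 * B1 + B2 + 500, N1 + N2 + 13, fun m => ?_⟩
  induction m with
  | zero =>
    intro B hB
    exact (h2.monoB (le_max_right _ _) (by omega)).mono (by omega)
  | succ m ih =>
    intro B hB
    have ih := ih B (by omega)
    have hb := h1.bound
    have hi := LogAx.inst 5 (num m) (.eq (mul (num 2) (succ (.var 5)))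
      (succ (succ (mul (num 2) (.var 5))))) trivial
    simp only [Fm.subst, var_subst, mul_subst, succ_subst, if_true, num_subst] at hi
    have e1 : Der Q (max k1 k2) B 1 (.imp dbl _) := Der.logic hi
      (by
        have : (Fm.all 5 (.eq (mul (num 2) (succ (.var 5)))
          (succ (succ (mul (num 2) (.var 5)))))).str.length ≤ B1 := hb.1
        simp only [imp_len, eq_len, mul_len, succ_len, num_len]
        omega)
      (max_le (hb.2.trans (le_max_left _ _)) (Nat.zero_le _))
    have e2 := e1.mp (h1.monoB (le_max_left _ _) (by omega))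
    have c1 : Cl (mul (num 2) (num m)) := cl_mul (cl_num 2) (cl_num m)
    have e3 := Der.csucc (cl_succ c1) (Der.csucc c1 ih
      (by simp only [mul_len, num_len]; omega)) (by simp only [mul_len, succ_len, num_len]; omega)
    have e4 := Der.trans (cl_mul (cl_num 2) (cl_succ (cl_num m))) e2 e3
      (by simp only [mul_len, succ_len, num_len]; omega)
    exact e4.mono (by nlinarith)

theorem der_bnum : ∃ k B0 c : ℕ, ∀ n B, B0 + 200 * n ≤ B →
    Der Q k B (c * (n + 1) ^ 2) (.eq (bnum n) (num n)) := by
  obtain ⟨k, B0, c, h⟩ := der_double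
  refine ⟨k, B0 + 500, c + 11, fun n => ?_⟩
  induction n using Nat.strong_induction_on with
  | _ n ih =>
    intro B hB
    rcases Nat.eq_zero_or_pos n with rfl | hn
    · rw [bnum_zero]
      exact (Der.logic (.refl _) (by simp only [eq_len, num_len]; omega) (Nat.zero_le _)).mono
        (by omega)
    have hl := bnum_len (n / 2)
    have e1 := Der.cmul (cl_bnum _) (ih (n / 2) (by omega) B (by omega))
      (by simp only [num_len]; omega)
    have c1 : Cl (mul (num 2) (bnum (n / 2))) := cl_mul (cl_num 2) (cl_bnum _)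
    have e2 := Der.trans c1 e1 (h (n / 2) B (by omega)) (by simp only [mul_len, num_len]; omega)
    have hN : (c + 11) * (n / 2 + 1) ^ 2 + 4 + c * (n / 2 + 1) + 3 + 4 ≤ (c + 11) * (n + 1) ^ 2 := by
      have h1 : n / 2 + 1 ≤ n := by omega
      have h2 : (n / 2 + 1) ^ 2 ≤ n ^ 2 := Nat.pow_le_pow_left h1 2
      have h3 : (c + 11) * (n / 2 + 1) ^ 2 ≤ (c + 11) * n ^ 2 := Nat.mul_le_mul_left _ h2
      have h4 : c * (n / 2 + 1) ≤ c * n := Nat.mul_le_mul_left _ h1
      nlinarith [Nat.zero_le (c * n)]
    rw [bnum_pos hn]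
    split_ifs with h0
    · have : 2 * (n / 2) = n := by omega
      rw [this] at e2
      exact e2.mono (by omega)
    · have e3 := Der.csucc c1 e2 (by simp only [mul_len, num_len]; omega)
      have : succ (num (2 * (n / 2))) = num n := by
        have h' : n = 2 * (n / 2) + 1 := by omega
        conv_rhs => rw [h']
        rfl
      rw [this] at e3
      exact e3.mono hN

theorem prov_bnum (n : ℕ) : Prov Q (.eq (bnum n) (num n)) ∧ Prov Q (.eq (num n) (bnum n)) := by
  obtain ⟨k, B0, c, h⟩ := der_bnum
  have h1 := (h n _ le_rfl).prov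
  exact ⟨h1, p_symm (cl_bnum n 9) h1⟩

end Pool.Agent.MP_8ec908_lc.H18
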