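import Pool.Agent.MP_8ec908_lc.H18.Assemble2
import Pool.Agent.MP_8ec908_lc.H18.Bin

/-! Final assembly for unary and binary numerals. -/

namespace Pool.Agent.MP_8ec908_lc.H18

open Pool.Agent.MP_8ec908_lc.Defs Pool.Agent.MP_8ec908_lc.H78 Function

theorem core2 (h3 : M3aStatement) (h45 : M45Statement) (g : Fm → ℕ) (C : Fm)
    (hprim : ∃ h : List ℕ → ℕ, Primrec h ∧ ∀ a, g a = h a.str) (har : ArF C)
    (hfv : ∀ x, C.Free x → x = 0 ∨ x = 1)
    (hprov : ∀ a : Fm, a.Closed → ∀ n : ℕ, NoShortRefutation (Q ++ [a]) n →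
      ∃ p, IsProof Q p ∧ con C (g a) n ∈ p) :
    ∃ a : Fm, a.Closed ∧ (¬ ∃ p, IsProof (Q ++ [a]) p ∧ Fm.bot ∈ p) ∧
      (∀ b ∈ Ax0, Prov (Q ++ [a]) b) ∧ Prov (Q ++ [a]) (wrap (C.subst 0 (num (g a)))) := by
  classical
  obtain ⟨h, hh, hg⟩ := hprim
  let dec : ℕ → List ℕ × List ℕ := fun c => (Encodable.decode c).getD ([], [])
  have hdec : Primrec dec := Primrec.option_getD.comp Primrec.decode (Primrec.const _)
  let F : ℕ → ℕ := fun c => h ((dec c).1 ++ (num c).str ++ (dec c).2)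
  have hF : Primrec F := hh.comp (Primrec.list_append.comp
    (Primrec.list_append.comp (Primrec.fst.comp hdec) primrec_num_str) (Primrec.snd.comp hdec))
  obtain ⟨Φ, hΦs, hΦf, hΦp, hΦa⟩ := h3 F hF
  obtain ⟨L1, L2, hL⟩ := conjL_str Ax0
  let c : ℕ := Encodable.encode (L1 ++ [8, 1, 1, 0, 7, 5, 2, 1, 1, 0], (body2 Φ C).str ++ L2)
  let a : Fm := conjL Ax0 (fix2 Φ C c)
  have hga : g a = F c := by
    have : dec c = (L1 ++ [8, 1, 1, 0, 7, 5, 2, 1, 1, 0], (body2 Φ C).str ++ L2) := by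
      simp only [dec, c, Encodable.encodek, Option.getD_some]
    simp only [F, this, hg, a, hL, fix2_str, List.append_assoc]
  have hfc : (fix2 Φ C c).Closed := fix2_closed hΦf hfv c
  have hac : a.Closed := conjL_closed ax0_closed hfc
  refine ⟨a, hac, ?_, ?_⟩
  · intro hex
    have hex' : ∃ n, ∃ p, IsProof (Q ++ [a]) p ∧ Fm.bot ∈ p ∧ len p ≤ n := by
      obtain ⟨p, h1, h2⟩ := hex
      exact ⟨_, p, h1, h2, le_rfl⟩
    obtain ⟨p, hp, hbot, hlen⟩ := Nat.find_spec hex'
    have h1 : 1 ≤ Nat.find hex' := by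
      refine le_trans ?_ hlen
      exact le_trans (fm_len_pos .bot) (List.single_le_sum (fun _ _ => Nat.zero_le _) _
        (List.mem_map_of_mem (f := fun a : Fm => a.str.length) hbot))
    obtain ⟨D, M, ι, PV, hstd, hQ, hPe, hsound, hnb, hAx, hconj, hstat⟩ := h45 _ h1
    refine hnb (hsound _ p hp hlen ?_ _ hbot)
    intro b hb hbl
    rcases List.mem_append.1 hb with hb | hb
    · exact hstat b (static_Q b hb) hbl (hQ b hb)
    rw [List.mem_singleton.1 hb] at hbl ⊢
    refine conjL_valid hconj ax0_closed hfc hAx (fun hl => ?_) hbl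
    refine hstat _ (fix2_static hΦs har c) hl fun v => ?_
    intro d0 hd0 d1 hd1 d3 hd3
    have e0 : d0 = ι c := by
      have : ev M (update v 2 d0) (.var 2) = ev M (update v 2 d0) (num c) := hd0
      rw [ev_num M hstd] at this
      simpa [ev] using this
    have e1 : d1 = ι (g a) := by
      have := hΦa D M ι hstd _ c (by simp [e0]) hd1
      rw [hga]
      simpa using this
    have hnp : ¬ M.rel 1 1 ![d3] := by
      intro hp'
      apply hd3
      simp only [Pe, sat]
      convert hp' using 1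
      funext i
      fin_cases i
      simp [ev]
    rw [hPe] at hnp
    push Not at hnp
    obtain ⟨x, hx, hxn⟩ := hnp
    have hno : NoShortRefutation (Q ++ [a]) x := Nat.find_min hex' hxn
    obtain ⟨q, hq, hmem⟩ := hprov a hac x hno
    have hs := sound M hq hQ _ hmem v
    rw [con, sat_subst M _ _ _ (freeFor_closed _ _ (num_not_occ _)),
      sat_subst M _ _ _ (freeFor_closed _ _ (num_not_occ _)), ev_num M hstd, ev_num M hstd] at hs
    refine (sat_congr M C fun z hz => ?_).1 hs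
    rcases hfv z hz with rfl | rfl
    · simp [e1]
    · simp [hx]
  · have ha : Prov (Q ++ [a]) a := Prov.ax (by simp)
    obtain ⟨hAx0, hfix⟩ := conjL_prov ha
    have hQ : ∀ b ∈ Q, Prov (Q ++ [a]) b := fun b hb => Prov.ax (List.mem_append_left _ hb)
    exact ⟨hAx0, fix2_prov hfv hfix (Prov.cut (hga ▸ hΦp c) fun b hb => by
        rcases List.mem_append.1 hb with hb | hb
        · exact hQ b hb
        · refine hAx0 b ?_
          simp only [List.mem_cons, List.not_mem_nil, or_false] at hb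
          rcases hb with rfl | rfl <;> simp [Ax0])⟩

/-- `M6Statement` for the numerals `ν` -/
def M6N (ν : ℕ → Tm) : Prop :=
  ∃ k : ℕ, ∃ P : Polynomial ℕ, ∀ n : ℕ,
    ∃ p, IsProof (Q ++ Ax0) p ∧ neg (Pe (ν n)) ∈ p ∧ len p ≤ P.eval n ∧ ∀ b ∈ p, b.rank ≤ k

theorem finish {ν : ℕ → Tm} (hcl : ∀ n, Cl (ν n)) (hνl : ∀ n, (ν n).str.length ≤ 21 * n + 3)
    (h6 : M6N ν) {a C0 : Fm} (hAx0 : ∀ b ∈ Ax0, Prov (Q ++ [a]) b)
    (hW : Prov (Q ++ [a]) (wrap C0)) :
    ∃ k : ℕ, ∃ P : Polynomial ℕ, ∀ n : ℕ,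
      ∃ p, IsProof (Q ++ [a]) p ∧ p.head? = some (C0.subst 1 (ν n)) ∧ len p ≤ P.eval n ∧
        ∀ b ∈ p, Cx true k b ∧ b.rank ≤ k := by
  obtain ⟨k6, P6, h6⟩ := h6
  have hQ : ∀ b ∈ Q, Prov (Q ++ [a]) b := fun b hb => Prov.ax (List.mem_append_left _ hb)
  obtain ⟨q, hq, hqm⟩ := Prov.all_lines (wrap C0 :: (Q ++ Ax0)) (by
    intro b hb
    rcases List.mem_cons.1 hb with rfl | hb
    · exact hW
    rcases List.mem_append.1 hb with hb | hb
    · exact hQ b hb
    · exact hAx0 b hb)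
  obtain ⟨kq, hkq⟩ := exists_rank_bound q
  set W0 : Fm := .imp (neg (Pe (.var 1))) C0 with hW0
  set ℓ := (wrap C0).str.length with hℓ
  refine ⟨max k6 kq + 1, P6 + Polynomial.C (len q + ℓ + 1) +
    Polynomial.C (3 * ℓ) * (21 * Polynomial.X + 3), fun n => ?_⟩
  obtain ⟨p, hp, hpe, hlen, hrk⟩ := h6 n
  obtain ⟨p', h1, h2, h3', h4⟩ := isProof_cut hp hq fun b hb => hqm b (List.mem_cons_of_mem _ hb)
  have hWq : wrap C0 ∈ p' ++ q := List.mem_append_right _ (hqm _ (by simp))
  have hsub : W0.subst 1 (ν n) = .imp (neg (Pe (ν n))) (C0.subst 1 (ν n)) := by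
    simp only [hW0, Fm.subst, neg, pe_subst, Tm.subst, if_true]
  let l1 : Fm := .imp (wrap C0) (W0.subst 1 (ν n))
  let l2 : Fm := W0.subst 1 (ν n)
  have s1 : IsProof (Q ++ [a]) (l1 :: (p' ++ q)) :=
    .logic _ _ h1 (.inst 1 (ν n) W0 (freeFor_closed _ _ (hcl n)))
  have s2 : IsProof (Q ++ [a]) (l2 :: l1 :: (p' ++ q)) :=
    .mp _ (wrap C0) _ s1 (List.mem_cons_of_mem _ hWq) (by simp [l1, l2])
  have s3 : IsProof (Q ++ [a]) (C0.subst 1 (ν n) :: l2 :: l1 :: (p' ++ q)) :=
    .mp _ (neg (Pe (ν n))) _ s2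
      (List.mem_cons_of_mem _ (List.mem_cons_of_mem _ (h2 _ hpe))) (by simp [l2, hsub])
  refine ⟨_, s3, rfl, ?_, ?_⟩
  · have hW0l : W0.str.length ≤ ℓ := by
      simp only [hℓ, wrap, ← hW0, Fm.str, List.length_cons, List.length_append]
      omega
    have hl2 : l2.str.length ≤ ℓ * (21 * n + 3) :=
      (fm_len_subst W0 1 (ν n)).trans (Nat.mul_le_mul hW0l (hνl n))
    have hl1 : l1.str.length = ℓ + l2.str.length + 1 := by
      simp only [l1, l2, hℓ, Fm.str, List.length_cons, List.length_append]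
    have hl3 : (C0.subst 1 (ν n)).str.length ≤ l2.str.length := by
      simp only [l2, hsub, Fm.str, List.length_cons, List.length_append]
      omega
    simp only [len_cons, len_append, Polynomial.eval_add, Polynomial.eval_mul, Polynomial.eval_C,
      Polynomial.eval_X, Polynomial.eval_ofNat]
    nlinarith
  · have hrW : (wrap C0).rank ≤ kq := hkq _ (hqm _ (by simp))
    have hrW0 : W0.rank + 1 = (wrap C0).rank := rfl
    have hr2 : l2.rank ≤ kq := by simp only [l2, rank_subst]; omega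
    have hr : ∀ b ∈ C0.subst 1 (ν n) :: l2 :: l1 :: (p' ++ q), b.rank ≤ max k6 kq := by
      intro b hb
      simp only [List.mem_cons, List.mem_append] at hb
      rcases hb with rfl | rfl | rfl | hb | hb
      · have : (C0.subst 1 (ν n)).rank ≤ l2.rank := by
          simp only [l2, hsub, Fm.rank]
          exact le_max_right _ _
        exact (this.trans hr2).trans (le_max_right _ _)
      · exact hr2.trans (le_max_right _ _)
      · exact (max_le hrW hr2).trans (le_max_right _ _)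
      · exact (hrk b (h3' b hb)).trans (le_max_left _ _)
      · exact (hkq b hb).trans (le_max_right _ _)
    exact fun b hb => ⟨cx_of_rank b _ (hr b hb) true, (hr b hb).trans (Nat.le_succ _)⟩

theorem isProof_mono {A A' p : List Fm} (hp : IsProof A p) (h : ∀ a ∈ A, a ∈ A') :
    IsProof A' p := by
  induction hp with
  | nil => exact .nil
  | logic p a _ ha ih => exact .logic _ a ih ha
  | ax p a _ ha ih => exact .ax _ a ih (h a ha)
  | mp p a b _ ha hab ih => exact .mp _ a b ih ha hab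
  | gen p x a _ ha ih => exact .gen _ x a ih ha

theorem pe_len (t : Tm) : (Pe t).str.length = t.str.length + 5 := by
  simp [Pe, Fm.str, idx]

theorem m6_bnum (h6 : M6Statement) : M6N bnum := by
  obtain ⟨k6, P6, h6⟩ := h6
  obtain ⟨k, B0, c, hb⟩ := der_bnum
  refine ⟨max k6 k, P6 + (Polynomial.C c * (Polynomial.X + 1) ^ 2 + 2) *
    (Polynomial.C B0 + 200 * Polynomial.X + 100) + 5 * (200 * Polynomial.X + 100), fun n => ?_⟩
  obtain ⟨p, hp, hpe, hlen, hrk⟩ := h6 n
  have hl := bnum_len n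
  have hi := LogAx.leib 9 (bnum n) (num n) (Pe (.var 9)) trivial
  simp only [pe_subst, var_subst, if_true] at hi
  have e0 : Der Q k (B0 + 200 * n + 100) 1 _ := Der.logic hi
    (by simp only [imp_len, eq_len, pe_len, num_len]; omega) (Nat.zero_le _)
  obtain ⟨q, hq, hqm, hql, hqb⟩ := e0.mp (hb n _ (by omega))
  have hq' : IsProof (Q ++ Ax0) q := isProof_mono hq fun a ha => List.mem_append_left _ ha
  set X := Pe (bnum n) with hX
  set Y := Pe (num n) with hY
  have lX : X.str.length ≤ 21 * n + 8 := by rw [hX, pe_len]; omega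
  have lY : Y.str.length = 4 * n + 8 := by rw [hY, pe_len, num_len]
  have lb : Fm.bot.str.length = 1 := rfl
  have s0 := isProof_append hp hq'
  have s1 := IsProof.logic _ _ s0 (.k (.imp Y .bot) X)
  have s2 := IsProof.mp _ (.imp Y .bot) (.imp X (.imp Y .bot)) s1
    (List.mem_cons_of_mem _ (List.mem_append_left _ hpe)) (by simp)
  have s3 := IsProof.logic _ _ s2 (.s X Y .bot)
  have s4 := IsProof.mp _ (.imp X (.imp Y .bot)) (.imp (.imp X Y) (.imp X .bot)) s3
    (by simp) (by simp)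
  have s5 := IsProof.mp _ (.imp X Y) (.imp X .bot) s4 (by simp [hqm]) (by simp)
  refine ⟨_, s5, by simp [neg], ?_, ?_⟩
  · have h1 := Der.len_le q fun b hb => (hqb b hb).1
    have h2 : q.length * (B0 + 200 * n + 100) ≤ (c * (n + 1) ^ 2 + 2) * (B0 + 200 * n + 100) :=
      Nat.mul_le_mul_right _ (by omega)
    simp only [len_cons, len_append, imp_len, lb, Polynomial.eval_add, Polynomial.eval_mul,
      Polynomial.eval_C, Polynomial.eval_X, Polynomial.eval_ofNat, Polynomial.eval_pow,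
      Polynomial.eval_one]
    omega
  · intro b hb
    simp only [List.mem_cons, List.mem_append] at hb
    rcases hb with rfl | rfl | rfl | rfl | rfl | hb | hb
    · exact Nat.zero_le _
    · exact Nat.zero_le _
    · exact Nat.zero_le _
    · exact Nat.zero_le _
    · exact Nat.zero_le _
    · exact (hrk b hb).trans (le_max_left _ _)
    · exact (hqb b hb).2.trans (le_max_right _ _)

theorem conN_prov {ν μ : ℕ → Tm} (h : ∀ n, Prov Q (.eq (ν n) (μ n)) ∧ Prov Q (.eq (μ n) (ν n)))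
    (C : Fm) (c n : ℕ) (h1 : Prov Q (conN ν C c n)) (hC : ∀ x, C.Free x → x = 0 ∨ x = 1)
    (hν : ∀ n, Cl (ν n)) (hμ : ∀ n, Cl (μ n)) : Prov Q (conN μ C c n) := by
  have h2 : Prov Q ((C.subst 0 (ν c)).subst 1 (μ n)) :=
    (leibniz 1 (h n).1 (h n).2 _).1.mp h1
  have h3 : Prov Q (.imp (C.subst 0 (ν c)) (C.subst 0 (μ c))) := (leibniz 0 (h c).1 (h c).2 _).1
  have h4 := p_inst (μ n) (h3.gen 1) (freeFor_closed _ _ (hμ n))
  exact h4.mp h2

theorem final (h3a : M3aStatement) (h3b : M3bStatement) (h45 : M45Statement) (h6 : M6Statement)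
    (h8 : M8Statement) (ν : ℕ → Tm) (hν : ν = num ∨ ν = bnum) :
    (∃ g C, NumerationN ν g C) ∧
    ∀ g C, NumerationN ν g C →
      ∃ a : Fm, a.Closed ∧ (¬ ∃ p, IsProof (Q ++ [a]) p ∧ Fm.bot ∈ p) ∧
        ∃ k : ℕ, ∃ P : Polynomial ℕ, ∀ n : ℕ,
          ∃ p, IsProof (Q ++ [a]) p ∧ p.head? = some (conN ν C (g a) n) ∧ len p ≤ P.eval n ∧
            ∀ b ∈ p, Cx true k b ∧ b.rank ≤ k := by
  have hcl : ∀ n, Cl (ν n) := by
    rcases hν with rfl | rfl
    exacts [cl_num, cl_bnum]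
  have hval : ∀ n v, (ν n).val v = n := by
    rcases hν with rfl | rfl
    exacts [fun n v => num_val v n, fun n v => bnum_val v n]
  have hlen : ∀ n, (ν n).str.length ≤ 21 * n + 3 := by
    rcases hν with rfl | rfl
    exacts [fun n => by rw [num_len]; omega, bnum_len]
  have heq : ∀ n, Prov Q (.eq (ν n) (num n)) ∧ Prov Q (.eq (num n) (ν n)) := by
    rcases hν with rfl | rfl
    exacts [fun n => ⟨Prov.logic (.refl _), Prov.logic (.refl _)⟩, prov_bnum]
  have h6' : M6N ν := by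
    rcases hν with rfl | rfl
    exacts [h6, m6_bnum h6]
  refine ⟨?_, fun g C hN => ?_⟩
  · obtain ⟨g, C, hN⟩ := nonvacuous2 h3b h8
    refine ⟨g, C, hN.primrec, hN.arith, hN.fv, fun a ha n => ?_, fun a ha n hn => ?_⟩
    · rw [← hN.correct a ha n, holds_conN hval]
      exact (holds_conN (fun n v => num_val v n) C (g a) n _).symm
    · exact conN_prov (fun n => (heq n).symm) C _ n (hN.provable a ha n hn) hN.fv cl_num hcl
  · obtain ⟨a, ha, hcon, hAx0, hW⟩ := core2 h3a h45 g C hN.primrec hN.arith hN.fv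
      fun a ha n hn => conN_prov heq C _ n (hN.provable a ha n hn) hN.fv hcl cl_num
    refine ⟨a, ha, hcon, finish hcl hlen h6' hAx0 ?_⟩
    have hQ : ∀ b ∈ Q, Prov (Q ++ [a]) b := fun b hb => Prov.ax (List.mem_append_left _ hb)
    have hw : ∀ t : Tm, (wrap C).subst 0 t = wrap (C.subst 0 t) := by
      intro t
      simp only [wrap, Fm.subst, neg, pe_subst, var_subst, one_ne_zero, if_false]
    have := (leibniz 0 ((heq (g a)).1.cut hQ) ((heq (g a)).2.cut hQ) (wrap C)).2
    rw [hw, hw] at this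
    exact this.mp hW

end Pool.Agent.MP_8ec908_lc.H18
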