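import Pool.Agent.MP_8ec908_lc.H78.Theory

/-! Interfaces between the modules (integrator helper18). -/

namespace Pool.Agent.MP_8ec908_lc.H18

open Pool.Agent.MP_8ec908_lc.Defs Pool.Agent.MP_8ec908_lc.H78

/-- Provability without bounds. -/
def Prov (A : List Fm) (b : Fm) : Prop := ∃ p, IsProof A p ∧ b ∈ p

/-- conjunction -/
def conj (a b : Fm) : Fm := neg (.imp a (neg b))

/-- An ordinary first-order structure on `D` for the whole language. -/
structure Struc (D : Type) where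
  fn : (k : ℕ) → (n : ℕ) → (Fin n → D) → D
  rel : (k : ℕ) → (n : ℕ) → (Fin n → D) → Prop

/-- value of a term -/
def ev {D : Type} (M : Struc D) (v : ℕ → D) : Tm → D
  | .var i => v i
  | .app k n ts => M.fn k n fun i => ev M v (ts i)

/-- Tarski truth -/
def sat {D : Type} (M : Struc D) : (ℕ → D) → Fm → Prop
  | _, .bot => False
  | v, .eq s t => ev M v s = ev M v t
  | v, .rel k n ts => M.rel k n fun i => ev M v (ts i)
  | v, .imp a b => sat M v a → sat M v b
  | v, .all x a => ∀ d : D, sat M (Function.update v x d) a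

/-- `ι` embeds the standard model onto the part of `M` defined by `NatR`. -/
structure StdExt {D : Type} (M : Struc D) (ι : ℕ → D) : Prop where
  inj : Function.Injective ι
  zero : M.fn 0 0 ![] = ι 0
  succ : ∀ x, M.fn 0 1 ![ι x] = ι (x + 1)
  add : ∀ x y, M.fn 0 2 ![ι x, ι y] = ι (x + y)
  mul : ∀ x y, M.fn 1 2 ![ι x, ι y] = ι (x * y)
  nat : ∀ d, M.rel 0 1 ![d] ↔ ∃ x, d = ι x

/-- Formulas built from arithmetic terms, equality and the unary relations `NatR`, `Pe`
(no `rho`, `xor`, `TT`). -/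
inductive Static : Fm → Prop
  | bot : Static .bot
  | eq (s t : Tm) : ArT s → ArT t → Static (.eq s t)
  | nat (t : Tm) : ArT t → Static (NatR t)
  | pe (t : Tm) : ArT t → Static (Pe t)
  | imp (a b : Fm) : Static a → Static b → Static (.imp a b)
  | all (x : ℕ) (a : Fm) : Static a → Static (.all x a)

/-- M3a (helper9): guarded definition `Φ(v₂, v₀)` of the graph of a primitive recursive function. -/
def M3aStatement : Prop :=
  ∀ F : ℕ → ℕ, Primrec F → ∃ Φ : Fm, Static Φ ∧ (∀ x, Φ.Free x → x = 0 ∨ x = 2) ∧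
    (∀ c, Prov (Q ++ [axN0, axNS]) ((Φ.subst 2 (num c)).subst 0 (num (F c)))) ∧
    ∀ (D : Type) (M : Struc D) (ι : ℕ → D), StdExt M ι → ∀ (v : ℕ → D) (c : ℕ), v 2 = ι c →
      sat M v Φ → v 0 = ι (F c)

/-- M3b (helper9): a primitive recursive relation is numerated in `Q` by an arithmetic formula. -/
def M3bStatement : Prop :=
  ∀ R : ℕ → ℕ → Prop, PrimrecRel R → ∃ C : Fm, ArF C ∧ (∀ x, C.Free x → x = 0 ∨ x = 1) ∧
    ∀ c n, ((con C c n).Holds (fun _ => 0) ↔ R c n) ∧ (R c n → Prov Q (con C c n))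

/-- M8 (helper19): short refutability is primitive recursive in the code of the string. -/
def M8Statement : Prop :=
  ∃ R : ℕ → ℕ → Prop, PrimrecRel R ∧
    ∀ (a : Fm) (n : ℕ), R (Encodable.encode a.str) n ↔ NoShortRefutation (Q ++ [a]) n

/-- M4 + M5 (helper41, helper47): the pseudo-model with threshold `n₀`. -/
def M45Statement : Prop :=
  ∀ n₀ : ℕ, 1 ≤ n₀ → ∃ (D : Type) (M : Struc D) (ι : ℕ → D) (PValid : Fm → Prop),
    StdExt M ι ∧ (∀ b ∈ Q, ∀ v, sat M v b) ∧
    (∀ d, M.rel 1 1 ![d] ↔ ∀ x, d = ι x → n₀ ≤ x) ∧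
    (∀ A p, IsProof A p → len p ≤ n₀ → (∀ a ∈ A, a.str.length ≤ n₀ → PValid a) →
      ∀ b ∈ p, PValid b) ∧
    ¬ PValid .bot ∧
    (∀ b ∈ Ax0, b.str.length ≤ n₀ → PValid b) ∧
    (∀ a b : Fm, a.Closed → b.Closed → PValid a → PValid b → PValid (conj a b)) ∧
    (∀ b, Static b → b.str.length ≤ n₀ → (∀ v, sat M v b) → PValid b)

end Pool.Agent.MP_8ec908_lc.H18
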