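import Pool.Agent.MP_8ec908_lc.H18.Iface

namespace Pool.Agent.MP_8ec908_lc.H18

open Pool.Agent.MP_8ec908_lc.Defs Pool.Agent.MP_8ec908_lc.H78

/-- `M45Statement` together with the guard property used by module M3. -/
def M45gStatement : Prop :=
  ∀ n₀ : ℕ, 1 ≤ n₀ → ∃ (D : Type) (M : Struc D) (ι : ℕ → D) (PValid : Fm → Prop),
    StdExt M ι ∧ (∀ d, M.fn 0 1 ![d] ≠ d → ∃ x, d = ι x) ∧ (∀ b ∈ Q, ∀ v, sat M v b) ∧
    (∀ d, M.rel 1 1 ![d] ↔ ∀ x, d = ι x → n₀ ≤ x) ∧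
    (∀ A p, IsProof A p → len p ≤ n₀ → (∀ a ∈ A, a.str.length ≤ n₀ → PValid a) →
      ∀ b ∈ p, PValid b) ∧
    ¬ PValid .bot ∧
    (∀ b ∈ Ax0, b.str.length ≤ n₀ → PValid b) ∧
    (∀ a b : Fm, a.Closed → b.Closed → PValid a → PValid b → PValid (conj a b)) ∧
    (∀ b, Static b → b.str.length ≤ n₀ → (∀ v, sat M v b) → PValid b)

end Pool.Agent.MP_8ec908_lc.H18
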