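import Pool.Agent.MP_8ec908_lc.H18.Iface

/-! Small proof toolkit and ordinary soundness. -/

namespace Pool.Agent.MP_8ec908_lc.H18

open Pool.Agent.MP_8ec908_lc.Defs Pool.Agent.MP_8ec908_lc.H78 Function

theorem isProof_append {A p q : List Fm} (hp : IsProof A p) (hq : IsProof A q) :
    IsProof A (p ++ q) := by
  induction hp with
  | nil => exact hq
  | logic p a _ ha ih => exact .logic _ a ih ha
  | ax p a _ ha ih => exact .ax _ a ih ha
  | mp p a b _ ha hab ih =>
    exact .mp _ a b ih (List.mem_append_left _ ha) (List.mem_append_left _ hab)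
  | gen p x a _ ha ih => exact .gen _ x a ih (List.mem_append_left _ ha)

theorem len_append (p q : List Fm) : len (p ++ q) = len p + len q := by simp [len]

theorem len_cons (a : Fm) (p : List Fm) : len (a :: p) = a.str.length + len p := by simp [len]

/-- Replace axioms by lines of a given proof. -/
theorem isProof_cut {A A' p q : List Fm} (hp : IsProof A' p) (hq : IsProof A q)
    (h : ∀ a ∈ A', a ∈ q) :
    ∃ p', IsProof A (p' ++ q) ∧ (∀ b ∈ p, b ∈ p' ++ q) ∧ (∀ b ∈ p', b ∈ p) ∧ len p' ≤ len p := by
  induction hp with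
  | nil => exact ⟨[], hq, by simp, by simp, le_rfl⟩
  | logic p a _ ha ih =>
    obtain ⟨p', h1, h2, h3, h4⟩ := ih
    refine ⟨a :: p', .logic _ a h1 ha, ?_, ?_, by rw [len_cons, len_cons]; omega⟩
    · intro b hb
      rcases List.mem_cons.1 hb with rfl | hb
      · simp
      · exact List.mem_cons_of_mem _ (h2 b hb)
    · intro b hb
      rcases List.mem_cons.1 hb with rfl | hb
      · simp
      · exact List.mem_cons_of_mem _ (h3 b hb)
  | ax p a _ ha ih =>
    obtain ⟨p', h1, h2, h3, h4⟩ := ih
    refine ⟨p', h1, ?_, fun b hb => List.mem_cons_of_mem _ (h3 b hb), by rw [len_cons]; omega⟩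
    intro b hb
    rcases List.mem_cons.1 hb with rfl | hb
    · exact List.mem_append_right _ (h _ ha)
    · exact h2 b hb
  | mp p a b _ ha hab ih =>
    obtain ⟨p', h1, h2, h3, h4⟩ := ih
    refine ⟨b :: p', .mp _ a b h1 (h2 _ ha) (h2 _ hab), ?_, ?_, by rw [len_cons, len_cons]; omega⟩
    · intro c hc
      rcases List.mem_cons.1 hc with rfl | hc
      · simp
      · exact List.mem_cons_of_mem _ (h2 c hc)
    · intro c hc
      rcases List.mem_cons.1 hc with rfl | hc
      · simp
      · exact List.mem_cons_of_mem _ (h3 c hc)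
  | gen p x a _ ha ih =>
    obtain ⟨p', h1, h2, h3, h4⟩ := ih
    refine ⟨.all x a :: p', .gen _ x a h1 (h2 _ ha), ?_, ?_, by rw [len_cons, len_cons]; omega⟩
    · intro c hc
      rcases List.mem_cons.1 hc with rfl | hc
      · simp
      · exact List.mem_cons_of_mem _ (h2 c hc)
    · intro c hc
      rcases List.mem_cons.1 hc with rfl | hc
      · simp
      · exact List.mem_cons_of_mem _ (h3 c hc)

namespace Prov

variable {A : List Fm} {a b c : Fm}

theorem logic (h : LogAx a) : Prov A a := ⟨[a], .logic _ a .nil h, by simp⟩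

theorem ax (h : a ∈ A) : Prov A a := ⟨[a], .ax _ a .nil h, by simp⟩

theorem mp (h1 : Prov A (.imp a b)) (h2 : Prov A a) : Prov A b := by
  obtain ⟨p, hp, h1⟩ := h1
  obtain ⟨q, hq, h2⟩ := h2
  exact ⟨b :: (p ++ q), .mp _ a b (isProof_append hp hq) (List.mem_append_right _ h2)
    (List.mem_append_left _ h1), by simp⟩

theorem lift (h : Prov A (.imp b c)) : Prov A (.imp (.imp a b) (.imp a c)) :=
  (logic (.s a b c)).mp ((logic (.k _ a)).mp h)

theorem comp (h1 : Prov A (.imp a b)) (h2 : Prov A (.imp b c)) : Prov A (.imp a c) :=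
  h2.lift.mp h1

theorem conj_left (h : Prov A (conj a b)) : Prov A a :=
  (logic (.dn a)).mp (comp (lift (logic (.k .bot b))) h)

theorem conj_right (h : Prov A (conj a b)) : Prov A b :=
  (logic (.dn b)).mp (comp (logic (.k (neg b) a)) h)

/-- finitely many provable formulas are lines of one proof -/
theorem all_lines (L : List Fm) (h : ∀ a ∈ L, Prov A a) : ∃ q, IsProof A q ∧ ∀ a ∈ L, a ∈ q := by
  induction L with
  | nil => exact ⟨[], .nil, by simp⟩
  | cons a L ih =>
    obtain ⟨q, hq, h1⟩ := ih fun b hb => h b (List.mem_cons_of_mem _ hb)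
    obtain ⟨p, hp, h2⟩ := h a (by simp)
    refine ⟨p ++ q, isProof_append hp hq, fun b hb => ?_⟩
    rcases List.mem_cons.1 hb with rfl | hb
    · exact List.mem_append_left _ h2
    · exact List.mem_append_right _ (h1 b hb)

theorem cut {A' : List Fm} (h : Prov A' a) (hA : ∀ b ∈ A', Prov A b) : Prov A a := by
  obtain ⟨p, hp, h1⟩ := h
  obtain ⟨q, hq, h2⟩ := all_lines A' hA
  obtain ⟨p', h3, h4, -, -⟩ := isProof_cut hp hq h2
  exact ⟨_, h3, h4 _ h1⟩

end Prov

/-! ### syntax lemmas -/

theorem tm_subst_not_occ (t : Tm) (x : ℕ) (u : Tm) (h : ¬ t.Occ x) : t.subst x u = t := by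
  induction t with
  | var i =>
    have : i ≠ x := h
    simp [Tm.subst, this]
  | app k n ts ih =>
    simp only [Tm.subst]
    congr 1
    funext i
    exact ih i fun h' => h ⟨i, h'⟩

theorem subst_not_free (φ : Fm) (x : ℕ) (u : Tm) (h : ¬ φ.Free x) : φ.subst x u = φ := by
  induction φ with
  | bot => rfl
  | eq s t =>
    simp only [Fm.subst]
    rw [tm_subst_not_occ s x u fun h' => h (Or.inl h'),
      tm_subst_not_occ t x u fun h' => h (Or.inr h')]
  | rel k n ts =>
    simp only [Fm.subst]
    congr 1
    funext i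
    exact tm_subst_not_occ _ x u fun h' => h ⟨i, h'⟩
  | imp φ ψ ih1 ih2 =>
    simp only [Fm.subst]
    rw [ih1 fun h' => h (Or.inl h'), ih2 fun h' => h (Or.inr h')]
  | all y φ ih =>
    simp only [Fm.subst]
    split_ifs with hy
    · rfl
    · rw [ih fun h' => h ⟨hy, h'⟩]

theorem num_not_occ (n x : ℕ) : ¬ (num n).Occ x := by
  induction n with
  | zero => rintro ⟨i, -⟩; exact i.elim0
  | succ n ih =>
    rintro ⟨i, hi⟩
    fin_cases i
    exact ih hi

theorem freeFor_closed (φ : Fm) (x : ℕ) {u : Tm} (h : ∀ y, ¬ u.Occ y) : φ.FreeFor x u := by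
  induction φ with
  | bot => trivial
  | eq s t => trivial
  | rel k n ts => trivial
  | imp φ ψ ih1 ih2 => exact ⟨ih1, ih2⟩
  | all y φ ih => exact Or.inr ⟨h y, ih⟩

theorem rank_subst (φ : Fm) (x : ℕ) (u : Tm) : (φ.subst x u).rank = φ.rank := by
  induction φ with
  | bot => rfl
  | eq s t => rfl
  | rel k n ts => rfl
  | imp φ ψ ih1 ih2 => simp only [Fm.subst, Fm.rank, ih1, ih2]
  | all y φ ih =>
    simp only [Fm.subst]
    split_ifs
    · rfl
    · simp only [Fm.rank, ih]

theorem tm_len_pos (t : Tm) : 1 ≤ t.str.length := by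
  cases t <;> simp [Tm.str]

theorem fm_len_pos (φ : Fm) : 1 ≤ φ.str.length := by
  cases φ <;> simp [Fm.str]

theorem tm_len_subst (t : Tm) (x : ℕ) (u : Tm) :
    (t.subst x u).str.length ≤ t.str.length * u.str.length := by
  have hu := tm_len_pos u
  induction t with
  | var i =>
    simp only [Tm.subst]
    split_ifs
    · exact Nat.le_mul_of_pos_left _ (tm_len_pos _)
    · exact Nat.le_mul_of_pos_right _ hu
  | app k n ts ih =>
    simp only [Tm.subst, Tm.str, List.length_cons, List.length_append, List.length_flatten,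
      List.map_ofFn, List.sum_ofFn, Function.comp]
    have h1 : ∑ i, ((ts i).subst x u).str.length ≤ (∑ i, (ts i).str.length) * u.str.length := by
      rw [Finset.sum_mul]
      exact Finset.sum_le_sum fun i _ => ih i
    nlinarith [Nat.zero_le (idx k).length, Nat.zero_le (idx n).length]

theorem fm_len_subst (φ : Fm) (x : ℕ) (u : Tm) :
    (φ.subst x u).str.length ≤ φ.str.length * u.str.length := by
  have hu := tm_len_pos u
  induction φ with
  | bot => exact Nat.le_mul_of_pos_right _ hu
  | eq s t =>
    simp only [Fm.subst, Fm.str, List.length_cons, List.length_append]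
    nlinarith [tm_len_subst s x u, tm_len_subst t x u]
  | rel k n ts =>
    simp only [Fm.subst, Fm.str, List.length_cons, List.length_append, List.length_flatten,
      List.map_ofFn, List.sum_ofFn, Function.comp]
    have h1 : ∑ i, ((ts i).subst x u).str.length ≤ (∑ i, (ts i).str.length) * u.str.length := by
      rw [Finset.sum_mul]
      exact Finset.sum_le_sum fun i _ => tm_len_subst _ x u
    nlinarith [Nat.zero_le (idx k).length, Nat.zero_le (idx n).length]
  | imp φ ψ ih1 ih2 =>
    simp only [Fm.subst, Fm.str, List.length_cons, List.length_append]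
    nlinarith
  | all y φ ih =>
    simp only [Fm.subst]
    split_ifs
    · exact Nat.le_mul_of_pos_right _ hu
    · simp only [Fm.str, List.length_cons, List.length_append]
      nlinarith [Nat.zero_le (idx y).length]

theorem num_zero_str : (num 0).str = [3, 0, 0] := by
  simp [num, zero, Tm.str, idx]

theorem num_succ_str (n : ℕ) : (num (n + 1)).str = [3, 0, 1, 0] ++ (num n).str := by
  simp [num, succ, Tm.str, idx]

theorem num_len (n : ℕ) : (num n).str.length = 4 * n + 3 := by
  induction n with
  | zero => simp [num_zero_str]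
  | succ n ih => rw [num_succ_str, List.length_append, ih]; simp; omega

theorem primrec_num_str : Primrec fun n => (num n).str := by
  have h : Primrec fun n : ℕ => (Nat.rec [3, 0, 0] (fun _ l => [3, 0, 1, 0] ++ l) n : List ℕ) :=
    Primrec.nat_rec₁ _ (Primrec.list_append.comp₂ (Primrec₂.const _) Primrec₂.right)
  refine h.of_eq fun n => ?_
  induction n with
  | zero => exact num_zero_str.symm
  | succ n ih => rw [num_succ_str, ← ih]

theorem cx_of_rank (φ : Fm) : ∀ r, φ.rank ≤ r → ∀ s, Cx s (r + 1) φ := by
  induction φ with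
  | bot => intro r _ s; exact .bot _ _
  | eq s t => intro r _ s; exact .atom _ _ _ trivial
  | rel k n ts => intro r _ s; exact .atom _ _ _ trivial
  | imp φ ψ ih1 ih2 =>
    intro r h s
    exact .imp _ _ _ _ (ih1 r ((le_max_left _ _).trans h) _) (ih2 r ((le_max_right _ _).trans h) _)
  | all y φ ih =>
    intro r h s
    obtain ⟨r', rfl⟩ : ∃ r', r = r' + 1 := ⟨r - 1, by simp only [Fm.rank] at h; omega⟩
    have h' : φ.rank ≤ r' := by simp only [Fm.rank] at h; omega
    exact .up false s _ _ (.all _ _ _ (ih r' h' false))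

theorem static_of_arF {φ : Fm} (h : ArF φ) : Static φ := by
  induction h with
  | bot => exact .bot
  | eq s t hs ht => exact .eq s t hs ht
  | imp a b _ _ ih1 ih2 => exact .imp a b ih1 ih2
  | all x a _ ih => exact .all x a ih

theorem arT_num (n : ℕ) : ArT (num n) := by
  induction n with
  | zero => exact .zero
  | succ n ih => exact .succ _ ih

theorem static_Q : ∀ b ∈ Q, Static b := by
  intro b hb
  apply static_of_arF
  simp only [Q, List.mem_cons, List.not_mem_nil, or_false] at hb
  rcases hb with rfl | rfl | rfl | rfl | rfl | rfl | rfl <;>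
    repeat (first | exact .var _ | exact .zero | exact .bot | constructor)

/-! ### ordinary semantics -/

section Sem
variable {D : Type} (M : Struc D)

theorem ev_congr (t : Tm) {v w : ℕ → D} (h : ∀ x, t.Occ x → v x = w x) : ev M v t = ev M w t := by
  induction t with
  | var i => exact h i rfl
  | app k n ts ih =>
    simp only [ev]
    congr 1
    funext i
    exact ih i fun x hx => h x ⟨i, hx⟩

theorem ev_subst (t : Tm) (x : ℕ) (u : Tm) (v : ℕ → D) :
    ev M v (t.subst x u) = ev M (update v x (ev M v u)) t := by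
  induction t with
  | var i =>
    by_cases h : i = x
    · subst h; simp [Tm.subst, ev]
    · simp [Tm.subst, h, ev]
  | app k n ts ih =>
    simp only [Tm.subst, ev]
    congr 1
    funext i
    exact ih i

theorem sat_congr (φ : Fm) : ∀ {v w : ℕ → D}, (∀ x, φ.Free x → v x = w x) →
    (sat M v φ ↔ sat M w φ) := by
  induction φ with
  | bot => intro v w _; rfl
  | eq s t =>
    intro v w h
    simp only [sat]
    rw [ev_congr M s fun x hx => h x (Or.inl hx), ev_congr M t fun x hx => h x (Or.inr hx)]
  | rel k n ts =>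
    intro v w h
    simp only [sat]
    have : (fun i => ev M v (ts i)) = fun i => ev M w (ts i) :=
      funext fun i => ev_congr M _ fun x hx => h x ⟨i, hx⟩
    rw [this]
  | imp φ ψ ih1 ih2 =>
    intro v w h
    simp only [sat]
    rw [ih1 fun x hx => h x (Or.inl hx), ih2 fun x hx => h x (Or.inr hx)]
  | all y φ ih =>
    intro v w h
    simp only [sat]
    refine forall_congr' fun d => ih fun x hx => ?_
    by_cases hxy : x = y
    · subst hxy; simp
    · rw [update_of_ne hxy, update_of_ne hxy]
      exact h x ⟨Ne.symm hxy, hx⟩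

theorem sat_subst (φ : Fm) (x : ℕ) (u : Tm) : ∀ {v : ℕ → D}, φ.FreeFor x u →
    (sat M v (φ.subst x u) ↔ sat M (update v x (ev M v u)) φ) := by
  induction φ with
  | bot => intros; rfl
  | eq s t => intros; simp only [Fm.subst, sat, ev_subst]
  | rel k n ts => intros; simp only [Fm.subst, sat, ev_subst]
  | imp φ ψ ih1 ih2 =>
    intro v hf
    simp only [Fm.subst, sat]
    rw [ih1 hf.1, ih2 hf.2]
  | all y φ ih =>
    intro v hf
    by_cases hx : (Fm.all y φ).Free x
    swap
    · rw [subst_not_free _ _ _ hx]
      refine sat_congr M _ fun z hz => ?_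
      rw [update_of_ne]
      rintro rfl
      exact hx hz
    rcases hf with hf | hf
    · exact (hf hx).elim
    have hyx : y ≠ x := hx.1
    simp only [Fm.subst, if_neg hyx, sat]
    refine forall_congr' fun d => ?_
    rw [ih hf.2, update_comm hyx]
    have : ev M (update v y d) u = ev M v u :=
      ev_congr M u fun z hz => update_of_ne (by rintro rfl; exact hf.1 hz) _ _
    rw [this]

theorem sat_logAx {φ : Fm} (h : LogAx φ) (v : ℕ → D) : sat M v φ := by
  cases h with
  | k φ ψ => exact fun h _ => h
  | s φ ψ χ => exact fun h1 h2 h3 => h1 h3 (h2 h3)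
  | dn φ => exact fun h => Classical.byContradiction fun h' => h h'
  | inst x u φ hf => exact fun H => (sat_subst M φ x u hf).2 (H _)
  | dist x φ ψ hx =>
    intro H1 H2 d
    refine H1 d ((sat_congr M φ fun y hy => ?_).1 H2)
    exact (update_of_ne (by rintro rfl; exact hx hy) _ _).symm
  | refl t => rfl
  | leib x s t φ hφ =>
    intro H
    have H' : ev M v s = ev M v t := H
    cases φ with
    | bot => exact hφ.elim
    | eq s' t' => simp only [Fm.subst, sat, ev_subst, H']; exact id
    | rel k n ts => simp only [Fm.subst, sat, ev_subst, H']; exact id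
    | imp _ _ => exact hφ.elim
    | all _ _ => exact hφ.elim

theorem sound {A p : List Fm} (hp : IsProof A p) (hA : ∀ a ∈ A, ∀ v, sat M v a) :
    ∀ b ∈ p, ∀ v, sat M v b := by
  induction hp with
  | nil => intro φ h; cases h
  | logic p a _ ha ih =>
    intro φ h
    rcases List.mem_cons.1 h with rfl | h
    · exact sat_logAx M ha
    · exact ih φ h
  | ax p a _ ha ih =>
    intro φ h
    rcases List.mem_cons.1 h with rfl | h
    · exact hA _ ha
    · exact ih φ h
  | mp p a b _ ha hab ih =>
    intro φ h
    rcases List.mem_cons.1 h with rfl | h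
    · exact fun v => ih _ hab v (ih _ ha v)
    · exact ih φ h
  | gen p x a _ ha ih =>
    intro φ h
    rcases List.mem_cons.1 h with rfl | h
    · exact fun v d => ih _ ha _
    · exact ih φ h

theorem ev_num {ι : ℕ → D} (h : StdExt M ι) (v : ℕ → D) (n : ℕ) : ev M v (num n) = ι n := by
  induction n with
  | zero =>
    rw [← h.zero]
    simp only [num, zero, ev]
    congr 1
    funext i
    exact i.elim0
  | succ n ih =>
    rw [← h.succ, ← ih]
    simp only [num, succ, ev]
    congr 1
    funext i
    fin_cases i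
    rfl

end Sem

end Pool.Agent.MP_8ec908_lc.H18
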